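import Mathlib

namespace Pool.Agent.Results.MP_8c6d5c_co.DoubleRoot
open Polynomial Finset

variable {E : Type} [Fintype E] [DecidableEq E]

/-- Subsets of `E` are their indicator vectors over `GF(2)`; `dot x y` is the parity of `|x ∩ y|`. -/
def dot (x y : E → ZMod 2) : ZMod 2 := ∑ e, x e * y e

/-- `x ∩ A` -/
def res (A : Finset E) (x : E → ZMod 2) : E → ZMod 2 := fun e => if e ∈ A then x e else 0

/-- The bicycle space `{c ∈ C : c ∩ A ∈ C^⊥}`. -/
def Bic (C : Submodule (ZMod 2) (E → ZMod 2)) (A : Finset E) : Submodule (ZMod 2) (E → ZMod 2) where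
  carrier := {c | c ∈ C ∧ ∀ d ∈ C, dot (res A c) d = 0}
  add_mem' := by
    rintro a b ⟨ha, ha'⟩ ⟨hb, hb'⟩
    refine ⟨C.add_mem ha hb, fun d hd => ?_⟩
    have : dot (res A (a + b)) d = dot (res A a) d + dot (res A b) d := by
      unfold dot res
      rw [← sum_add_distrib]
      exact sum_congr rfl fun e _ => by split_ifs <;> simp [add_mul]
    rw [this, ha' d hd, hb' d hd, add_zero]
  zero_mem' := ⟨C.zero_mem, fun d _ => by simp [dot, res]⟩
  smul_mem' := by
    rintro t a ⟨ha, ha'⟩
    refine ⟨C.smul_mem t ha, fun d hd => ?_⟩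
    have : dot (res A (t • a)) d = t * dot (res A a) d := by
      unfold dot res
      rw [mul_sum]
      exact sum_congr rfl fun e _ => by split_ifs <;> simp [mul_assoc]
    rw [this, ha' d hd, mul_zero]

/-- The Penrose polynomial of the binary matroid with cycle space `C`. -/
noncomputable def Penrose (C : Submodule (ZMod 2) (E → ZMod 2)) : ℤ[X] :=
  ∑ A : Finset E, (-1) ^ A.card * X ^ Module.finrank (ZMod 2) (Bic C A)

def Conn (C : Submodule (ZMod 2) (E → ZMod 2)) : Prop :=
  Nonempty E ∧ ¬ ∃ F : Finset E, F.Nonempty ∧ Fᶜ.Nonempty ∧ (C : Set (E → ZMod 2)) =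
    {z | ∃ x ∈ C, ∃ y ∈ C, (∀ e, e ∉ F → x e = 0) ∧ (∀ e, e ∈ F → y e = 0) ∧ z = x + y}

def vec (m : ℕ) : Fin 9 → ZMod 2 := fun e => if m.testBit e then 1 else 0
def fs (a : ℕ) : Finset (Fin 9) := univ.filter fun e => a.testBit e = true
def cw (n : ℕ) : ℕ := (289067088300039546149842043714229548739798557135335932254767476300894568338449550030336 >>> (9 * n)) % 512
def PAR : ℕ := 7877703466965951741784356862959128443265788382021580589009765834561689170293574700951863729220303088751879007905492507289381878411509378061636115163081110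
def CM : ℕ := 52374274895436049878966300277603580143601032487488422738291648829732270786156440178420519279024879570426078741282325554267761184439497195550175232262145
def dt (a : ℕ) : ℕ := (989350801383056596345651386469346938168475643240567679974274033161757772431843626951843874011828409437780635415267665996479117325664652540054490635967992355119042558307943656835407298104834877966334741732321997021538628615994750675281223050179556064056549304903837756378243296420413240269501027154615447021098483388240702310284819357747475739782934562030939552456829088875934277889312439225220661956633565426105125313111586004583245247583079261994127667739084581 >>> (3 * a)) % 8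
def ok (a n : ℕ) : Bool := (List.range 32).all fun n' => !PAR.testBit ((cw n &&& a) &&& cw n')
def cnt (a : ℕ) : ℕ := ((range 32).filter fun n => ok a n = true).card

lemma c0 : ∀ a, a < 64 → cnt (0 + a) = 2 ^ dt (0 + a) := by decide +kernel
lemma c1 : ∀ a, a < 64 → cnt (64 + a) = 2 ^ dt (64 + a) := by decide +kernel
lemma c2 : ∀ a, a < 64 → cnt (128 + a) = 2 ^ dt (128 + a) := by decide +kernel
lemma c3 : ∀ a, a < 64 → cnt (192 + a) = 2 ^ dt (192 + a) := by decide +kernel
lemma c4 : ∀ a, a < 64 → cnt (256 + a) = 2 ^ dt (256 + a) := by decide +kernel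
lemma c5 : ∀ a, a < 64 → cnt (320 + a) = 2 ^ dt (320 + a) := by decide +kernel
lemma c6 : ∀ a, a < 64 → cnt (384 + a) = 2 ^ dt (384 + a) := by decide +kernel
lemma c7 : ∀ a, a < 64 → cnt (448 + a) = 2 ^ dt (448 + a) := by decide +kernel

lemma cnt_eq (a : ℕ) (ha : a < 512) : cnt a = 2 ^ dt a := by
  have h : a / 64 < 8 := by omega
  rw [← Nat.div_add_mod a 64]
  generalize a / 64 = q at h
  interval_cases q
  · exact c0 _ (Nat.mod_lt _ (by norm_num))
  · exact c1 _ (Nat.mod_lt _ (by norm_num))
  · exact c2 _ (Nat.mod_lt _ (by norm_num))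
  · exact c3 _ (Nat.mod_lt _ (by norm_num))
  · exact c4 _ (Nat.mod_lt _ (by norm_num))
  · exact c5 _ (Nat.mod_lt _ (by norm_num))
  · exact c6 _ (Nat.mod_lt _ (by norm_num))
  · exact c7 _ (Nat.mod_lt _ (by norm_num))

lemma vec_xor (x y : ℕ) : vec (x ^^^ y) = vec x + vec y := by
  funext e
  simp only [vec, Nat.testBit_xor, Pi.add_apply]
  cases x.testBit e <;> cases y.testBit e <;> decide

lemma vec_inj {x y : ℕ} (hx : x < 512) (hy : y < 512) (h : vec x = vec y) : x = y := by
  apply Nat.eq_of_testBit_eq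
  intro i
  by_cases hi : i < 9
  · have := congrFun h ⟨i, hi⟩
    simp only [vec] at this
    revert this
    cases x.testBit i <;> cases y.testBit i <;> decide
  · have : (512 : ℕ) ≤ 2 ^ i := Nat.pow_le_pow_right (n := 2) (by norm_num) (not_lt.1 hi)
    rw [Nat.testBit_lt_two_pow (by omega), Nat.testBit_lt_two_pow (by omega)]

lemma res_vec (a x : ℕ) : res (fs a) (vec x) = vec (x &&& a) := by
  funext e
  simp only [res, fs, vec, Nat.testBit_and, mem_filter, mem_univ, true_and]
  cases x.testBit e <;> cases a.testBit e <;> simp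

lemma par_eq : ∀ m, m < 512 → (∑ e, vec m e = 0 ↔ PAR.testBit m = false) := by decide +kernel

lemma cw_lt (n : ℕ) : cw n < 512 := Nat.mod_lt _ (by norm_num)

lemma dot_vec (x n : ℕ) : dot (vec x) (vec (cw n)) = 0 ↔ PAR.testBit (x &&& cw n) = false := by
  rw [← par_eq _ (lt_of_le_of_lt Nat.and_le_right (cw_lt n))]
  unfold dot
  rw [sum_congr rfl (g := fun e => vec (x &&& cw n) e)]
  intro e _
  simp only [vec, Nat.testBit_and]
  cases x.testBit e <;> cases (cw n).testBit e <;> simp

lemma cw_xor : ∀ a, a < 32 → ∀ b, b < 32 → cw a ^^^ cw b = cw (a ^^^ b) := by decide +kernel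
lemma cw_inj : ∀ a, a < 32 → ∀ b, b < 32 → cw a = cw b → a = b := by decide +kernel
lemma cw_mem : ∀ a, a < 32 → CM.testBit (cw a) = true := by decide +kernel
lemma cw_con : ∀ a, a < 511 → a ≠ 0 → ∃ n, n < 32 ∧ CM.testBit (cw n &&& a) = false := by
  decide +kernel

def CC : Submodule (ZMod 2) (Fin 9 → ZMod 2) where
  carrier := {x | ∃ n, n < 32 ∧ x = vec (cw n)}
  add_mem' := by
    rintro _ _ ⟨a, ha, rfl⟩ ⟨b, hb, rfl⟩
    exact ⟨a ^^^ b, Nat.xor_lt_two_pow (n := 5) ha hb, by rw [← vec_xor, cw_xor a ha b hb]⟩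
  zero_mem' := ⟨0, by norm_num, by decide +kernel⟩
  smul_mem' := by
    rintro t _ ⟨a, ha, rfl⟩
    fin_cases t
    · exact ⟨0, by norm_num, (zero_smul _ _).trans (by decide +kernel)⟩
    · exact ⟨a, ha, one_smul _ _⟩

lemma rank_eq (a : ℕ) (ha : a < 512) : Module.finrank (ZMod 2) (Bic CC (fs a)) = dt a := by
  have h1 : (Bic CC (fs a) : Set (Fin 9 → ZMod 2)) =
      (fun n => vec (cw n)) '' ((range 32).filter fun n => ok a n = true : Finset ℕ) := by
    ext x
    simp only [Set.mem_image, coe_filter, mem_range, Set.mem_setOf_eq, ok, List.all_eq_true,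
      List.mem_range, Bool.not_eq_true']
    constructor
    · rintro ⟨⟨n, hn, rfl⟩, h⟩
      refine ⟨n, ⟨hn, fun n' hn' => ?_⟩, rfl⟩
      rw [← dot_vec, ← res_vec]
      exact h _ ⟨n', hn', rfl⟩
    · rintro ⟨n, ⟨hn, h⟩, rfl⟩
      refine ⟨⟨n, hn, rfl⟩, ?_⟩
      rintro _ ⟨n', hn', rfl⟩
      rw [res_vec, dot_vec]
      exact h n' hn'
  have h2 : Nat.card (Bic CC (fs a)) = cnt a := by
    show (Bic CC (fs a) : Set (Fin 9 → ZMod 2)).ncard = _
    rw [h1, Set.InjOn.ncard_image, Set.ncard_coe_finset, cnt]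
    intro x hx y hy h
    simp only [coe_filter, mem_range, Set.mem_setOf_eq] at hx hy
    exact cw_inj x hx.1 y hy.1 (vec_inj (cw_lt _) (cw_lt _) h)
  rw [Module.natCard_eq_pow_finrank (K := ZMod 2), Nat.card_zmod, cnt_eq a ha] at h2
  exact Nat.pow_right_injective (le_refl 2) h2

lemma fs_bij : Function.Bijective (fun a : Fin 512 => fs a) := by
  rw [Fintype.bijective_iff_injective_and_card]
  refine ⟨fun x y h => Fin.ext (vec_inj x.2 y.2 ?_), by simp⟩
  funext e
  have := congrArg (fun A => e ∈ A) h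
  simp only [fs, mem_filter, mem_univ, true_and, eq_iff_iff] at this
  simp only [vec]
  exact if_congr this rfl rfl

def co (k : ℕ) : ℤ := ∑ a ∈ (range 512).filter (fun a => dt a = k), (-1) ^ (fs a).card

lemma dt_lt : ∀ a, a < 512 → dt a < 6 := by decide +kernel

lemma pen_eq : Penrose CC = (X - 1) ^ 2 * (X - 2) ^ 3 := by
  unfold Penrose
  rw [← fs_bij.sum_comp, sum_congr rfl (fun a _ => by rw [rank_eq a a.2]),
    Fin.sum_univ_eq_sum_range (fun a => (-1 : ℤ[X]) ^ (fs a).card * X ^ dt a) 512,
    ← sum_fiberwise_of_maps_to (g := dt) (t := range 6)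
      (fun a ha => mem_range.2 (dt_lt a (mem_range.1 ha)))]
  have : ∀ k ∈ range 6, ∑ a ∈ (range 512).filter (fun a => dt a = k),
      (-1 : ℤ[X]) ^ (fs a).card * X ^ dt a = (co k : ℤ[X]) * X ^ k := by
    intro k _
    rw [co, Int.cast_sum, sum_mul]
    apply sum_congr rfl
    intro a ha
    rw [(mem_filter.1 ha).2]; push_cast; rfl
  rw [sum_congr rfl this]
  have e0 : co 0 = -8 := by decide +kernel
  have e1 : co 1 = 28 := by decide +kernel
  have e2 : co 2 = -38 := by decide +kernel
  have e3 : co 3 = 25 := by decide +kernel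
  have e4 : co 4 = -8 := by decide +kernel
  have e5 : co 5 = 1 := by decide +kernel
  simp only [sum_range_succ, sum_range_zero, e0, e1, e2, e3, e4, e5]
  push_cast
  ring

theorem result : ∃ (m : ℕ) (C : Submodule (ZMod 2) (Fin m → ZMod 2)),
    Conn C ∧ Penrose C ≠ 0 ∧ (X - 1) ^ 2 ∣ Penrose C := by
  refine ⟨9, CC, ⟨⟨0⟩, ?_⟩, ?_, ⟨_, pen_eq⟩⟩
  · rintro ⟨F, h1, h2, h⟩
    obtain ⟨a, rfl⟩ := fs_bij.2 F
    have a0 : a.val ≠ 0 := fun e => by
      simp only [e] at h1; exact absurd h1 (by decide +kernel)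
    have a1 : a.val ≠ 511 := fun e => by
      simp only [e] at h2; exact absurd h2 (by decide +kernel)
    obtain ⟨n, hn, hc⟩ := cw_con a (by have := a.2; omega) a0
    have : vec (cw n) ∈ (CC : Set (Fin 9 → ZMod 2)) := ⟨n, hn, rfl⟩
    rw [h] at this
    obtain ⟨x, ⟨n', hn', rfl⟩, y, -, hx, hy, hz⟩ := this
    have e : vec (cw n &&& a) = vec (cw n') := by
      rw [← res_vec, hz]
      funext e
      simp only [res, Pi.add_apply]
      split_ifs with he
      · rw [hy e he, add_zero]
      · exact (hx e he).symm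
    rw [vec_inj (lt_of_le_of_lt Nat.and_le_left (cw_lt n)) (cw_lt n') e, cw_mem n' hn'] at hc
    exact absurd hc (by decide)
  · rw [pen_eq]
    intro h
    have := congrArg (eval 0) h
    norm_num at this

end Pool.Agent.Results.MP_8c6d5c_co.DoubleRoot
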